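import Mathlib

set_option autoImplicit false

/-!
# Half of the mixed discriminant modulo two
-/

namespace Pool.Agent.LawsFK

open Finset

section

variable {n : ℕ}

abbrev Mat (n : ℕ) := Fin n → Fin n → ZMod 2

theorem z2add (x : ZMod 2) : x + x = 0 := by revert x; decide

/-- product along a pair of permutations -/
def PP (v : Fin n → Mat n) (ρ σ : Equiv.Perm (Fin n)) : ZMod 2 := ∏ i, v i (ρ i) (σ i)

/-- half of the mixed discriminant, with the pair ordered at slot `s` -/
def hf (s : Fin n) (v : Fin n → Mat n) : ZMod 2 :=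
  ∑ p : Equiv.Perm (Fin n) × Equiv.Perm (Fin n),
    (if p.1 s < p.2 s then 1 else 0) * PP v p.1 p.2

def SZ (A : Mat n) : Prop := (∀ i j, A i j = A j i) ∧ ∀ i, A i i = 0

theorem PP_swap {v : Fin n → Mat n} (hv : ∀ i, SZ (v i)) (ρ σ : Equiv.Perm (Fin n)) :
    PP v ρ σ = PP v σ ρ := by
  unfold PP
  exact Finset.prod_congr rfl fun i _ => (hv i).1 _ _

theorem PP_diag {v : Fin n → Mat n} (hv : ∀ i, SZ (v i)) {ρ σ : Equiv.Perm (Fin n)} {i : Fin n}
    (h : ρ i = σ i) : PP v ρ σ = 0 := by
  unfold PP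
  apply Finset.prod_eq_zero (Finset.mem_univ i)
  rw [h]; exact (hv i).2 _

/-- sums of functions symmetric under the swap and vanishing on the diagonal -/
theorem sum_swap_zero {α : Type} [Fintype α] [DecidableEq α] (f : α × α → ZMod 2)
    (h1 : ∀ p, f p = f p.swap) (h2 : ∀ a, f (a, a) = 0) : ∑ p, f p = 0 := by
  refine Finset.sum_involution (fun p _ => p.swap) ?_ ?_ ?_ ?_
  · intro p _
    rw [← h1]; exact z2add _
  · intro p _ hp heq
    apply hp
    have : p.2 = p.1 := by
      have := congrArg Prod.fst heq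
      simpa using this
    have h3 : p = (p.1, p.1) := Prod.ext rfl this
    rw [h3]; exact h2 _
  · intro p _; exact Finset.mem_univ _
  · intro p _; exact Prod.swap_swap p

theorem hf_indep {v : Fin n → Mat n} (hv : ∀ i, SZ (v i)) (s s' : Fin n) :
    hf s v = hf s' v := by
  have : hf s v + hf s' v = 0 := by
    unfold hf
    rw [← Finset.sum_add_distrib]
    apply sum_swap_zero
    · rintro ⟨ρ, σ⟩
      simp only [Prod.swap_prod_mk]
      rw [PP_swap hv σ ρ]
      by_cases h1 : ρ s = σ s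
      · rw [PP_diag hv h1]; simp
      by_cases h2 : ρ s' = σ s'
      · rw [PP_diag hv h2]; simp
      have hP := z2add (PP v ρ σ)
      rcases lt_or_gt_of_ne h1 with h1 | h1 <;> rcases lt_or_gt_of_ne h2 with h2 | h2 <;>
        simp only [h1, h2, if_true, h1.not_gt, h2.not_gt, if_false]
      · linear_combination hP
      · ring
      · ring
      · linear_combination -hP
    · intro a
      simp
  have h2 : hf s v = - hf s' v := eq_neg_of_add_eq_zero_left this
  rw [h2]
  exact ZMod.neg_eq_self_mod_two _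

/-- multilinear expansion -/
theorem hf_expand {O : Type} [Fintype O] [DecidableEq O] (s : Fin n) (g : Fin n → O → Mat n) :
    hf s (fun i j k => ∑ o, g i o j k) = ∑ r : Fin n → O, hf s (fun i => g i (r i)) := by
  unfold hf PP
  rw [Finset.sum_comm]
  apply Finset.sum_congr rfl
  intro p _
  rw [← Finset.mul_sum]
  congr 1
  rw [Finset.prod_univ_sum]
  simp only [Fintype.piFinset_univ]

theorem hf_slot_zero (s : Fin n) {v : Fin n → Mat n} {i : Fin n} (h : ∀ j k, v i j k = 0) :
    hf s v = 0 := by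
  unfold hf
  apply Finset.sum_eq_zero
  intro p _
  have : PP v p.1 p.2 = 0 := by
    unfold PP
    exact Finset.prod_eq_zero (Finset.mem_univ i) (h _ _)
  rw [this, mul_zero]

/-- elementary alternating matrices -/
def wd (y z : Fin n → ZMod 2) : Mat n := fun j k => y j * z k + z j * y k

theorem wd_SZ (y z : Fin n → ZMod 2) : SZ (wd y z) := by
  constructor
  · intro i j; unfold wd; ring
  · intro i; unfold wd; rw [mul_comm (z i), z2add]

end

section cyc

variable {n q : ℕ}

def fA (y : Fin (q+1) → Fin n → ZMod 2) (ε : Fin (q+1) → Bool) (k : Fin (q+1)) :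
    Fin n → ZMod 2 := if ε k then y (k+1) else y k

def fB (y : Fin (q+1) → Fin n → ZMod 2) (ε : Fin (q+1) → Bool) (k : Fin (q+1)) :
    Fin n → ZMod 2 := if ε k then y k else y (k+1)

/-- the rest of the product -/
def rst (v : Fin n → Mat n) (l : Fin (q+1) → Fin n) (ρ σ : Equiv.Perm (Fin n)) : ZMod 2 :=
  ∏ i ∈ (Finset.univ \ Finset.image l Finset.univ), v i (ρ i) (σ i)

def PE (v : Fin n → Mat n) (y : Fin (q+1) → Fin n → ZMod 2) (l : Fin (q+1) → Fin n)
    (ε : Fin (q+1) → Bool) (ρ σ : Equiv.Perm (Fin n)) : ZMod 2 :=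
  (∏ k, fA y ε k (ρ (l k))) * (∏ k, fB y ε k (σ (l k))) * rst v l ρ σ

theorem PP_eq_sum {v : Fin n → Mat n} {y : Fin (q+1) → Fin n → ZMod 2} {l : Fin (q+1) → Fin n}
    (hl : Function.Injective l) (hv : ∀ k, v (l k) = wd (y k) (y (k+1)))
    (ρ σ : Equiv.Perm (Fin n)) : PP v ρ σ = ∑ ε : Fin (q+1) → Bool, PE v y l ε ρ σ := by
  unfold PP PE rst
  rw [← Finset.sum_mul, ← Finset.prod_sdiff (Finset.subset_univ (Finset.image l Finset.univ)),
    mul_comm]
  congr 1
  rw [Finset.prod_image (fun a _ b _ h => hl h)]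
  have : ∀ k, v (l k) (ρ (l k)) (σ (l k)) = ∑ e : Bool,
      ((if e then y (k+1) else y k) (ρ (l k)) * (if e then y k else y (k+1)) (σ (l k))) := by
    intro k
    rw [hv k]
    simp [wd, add_comm]
  simp only [this]
  rw [Finset.prod_univ_sum]
  simp only [Fintype.piFinset_univ, fA, fB, Finset.prod_mul_distrib]

theorem rst_swap {v : Fin n → Mat n} (hv : ∀ i, SZ (v i)) (l : Fin (q+1) → Fin n)
    (ρ σ : Equiv.Perm (Fin n)) : rst v l ρ σ = rst v l σ ρ := by
  unfold rst
  exact Finset.prod_congr rfl fun i _ => (hv i).1 _ _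

theorem PE_not {v : Fin n → Mat n} (hv : ∀ i, SZ (v i)) (y : Fin (q+1) → Fin n → ZMod 2)
    (l : Fin (q+1) → Fin n) (ε : Fin (q+1) → Bool) (ρ σ : Equiv.Perm (Fin n)) :
    PE v y l (fun j => !ε j) ρ σ = PE v y l ε σ ρ := by
  unfold PE
  rw [rst_swap hv]
  congr 1
  rw [mul_comm]
  congr 1
  · apply Finset.prod_congr rfl
    intro k _
    unfold fA fB
    cases h : ε k <;> simp [h]
  · apply Finset.prod_congr rfl
    intro k _
    unfold fA fB
    cases h : ε k <;> simp [h]

theorem rst_zero {v : Fin n → Mat n} (hv : ∀ i, SZ (v i)) {l : Fin (q+1) → Fin n} {s : Fin n}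
    (hs : ∀ k, l k ≠ s) {ρ σ : Equiv.Perm (Fin n)} (h : ρ s = σ s) : rst v l ρ σ = 0 := by
  unfold rst
  apply Finset.prod_eq_zero (i := s)
  · simp [hs]
  · rw [h]; exact (hv s).2 _

/-- permuting the arguments outside the rest does not change the rest -/
theorem rst_congr_left (v : Fin n → Mat n) (l : Fin (q+1) → Fin n) {ρ ρ' : Equiv.Perm (Fin n)}
    (σ : Equiv.Perm (Fin n)) (h : ∀ i, (∀ k, l k ≠ i) → ρ i = ρ' i) :
    rst v l ρ σ = rst v l ρ' σ := by
  unfold rst
  apply Finset.prod_congr rfl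
  intro i hi
  have : ∀ k, l k ≠ i := by
    intro k hk
    simp at hi
    exact hi k hk
  rw [h i this]

theorem rst_congr_right (v : Fin n → Mat n) (l : Fin (q+1) → Fin n) {σ σ' : Equiv.Perm (Fin n)}
    (ρ : Equiv.Perm (Fin n)) (h : ∀ i, (∀ k, l k ≠ i) → σ i = σ' i) :
    rst v l ρ σ = rst v l ρ σ' := by
  unfold rst
  apply Finset.prod_congr rfl
  intro i hi
  have : ∀ k, l k ≠ i := by
    intro k hk
    simp at hi
    exact hi k hk
  rw [h i this]

/-- the full sum of one expanded product -/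
def FE (v : Fin n → Mat n) (y : Fin (q+1) → Fin n → ZMod 2) (l : Fin (q+1) → Fin n)
    (ε : Fin (q+1) → Bool) : ZMod 2 :=
  ∑ p : Equiv.Perm (Fin n) × Equiv.Perm (Fin n), PE v y l ε p.1 p.2

theorem FE_not {v : Fin n → Mat n} (hv : ∀ i, SZ (v i)) (y : Fin (q+1) → Fin n → ZMod 2)
    (l : Fin (q+1) → Fin n) (ε : Fin (q+1) → Bool) :
    FE v y l (fun j => !ε j) = FE v y l ε := by
  unfold FE
  rw [← Equiv.sum_comp (Equiv.prodComm (Equiv.Perm (Fin n)) (Equiv.Perm (Fin n)))
    (fun p => PE v y l ε p.1 p.2)]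
  apply Finset.sum_congr rfl
  intro p _
  rw [PE_not hv]
  rfl

/-- a non-constant choice, first type -/
theorem FE_aux {v : Fin n → Mat n} {y : Fin (q+1) → Fin n → ZMod 2} {l : Fin (q+1) → Fin n}
    (hl : Function.Injective l) {ε : Fin (q+1) → Bool} {k : Fin (q+1)}
    (h1 : ε k = true) (h2 : ε (k+1) = false) : FE v y l ε = 0 := by
  have hne : k + 1 ≠ k := by
    intro h; rw [h, h1] at h2; exact Bool.noConfusion h2
  have hlne : l k ≠ l (k+1) := fun h => hne (hl h).symm
  unfold FE
  refine Finset.sum_involution (fun p _ => (p.1 * Equiv.swap (l k) (l (k+1)), p.2)) ?_ ?_ ?_ ?_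
  · rintro ⟨ρ, σ⟩ _
    have e1 : ∏ j, fA y ε j ((ρ * Equiv.swap (l k) (l (k+1))) (l j)) =
        ∏ j, fA y ε j (ρ (l j)) := by
      rw [← Equiv.prod_comp (Equiv.swap k (k+1)) (fun j => fA y ε j (ρ (l j)))]
      apply Finset.prod_congr rfl
      intro j _
      rw [Equiv.Perm.mul_apply, hl.swap_apply]
      have e0 : fA y ε j = fA y ε (Equiv.swap k (k+1) j) := by
        by_cases hj : j = k
        · rw [hj, Equiv.swap_apply_left]
          unfold fA; rw [h1, h2]; simp
        by_cases hj' : j = k + 1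
        · rw [hj', Equiv.swap_apply_right]
          unfold fA; rw [h1, h2]; simp
        rw [Equiv.swap_apply_of_ne_of_ne hj hj']
      rw [e0]
    have e2 : PE v y l ε (ρ * Equiv.swap (l k) (l (k+1))) σ = PE v y l ε ρ σ := by
      unfold PE
      rw [e1, rst_congr_left v l (ρ := ρ * Equiv.swap (l k) (l (k+1))) (ρ' := ρ) σ]
      intro i hi
      rw [Equiv.Perm.mul_apply, Equiv.swap_apply_of_ne_of_ne (hi k).symm (hi (k+1)).symm]
    change PE v y l ε ρ σ + PE v y l ε (ρ * Equiv.swap (l k) (l (k+1))) σ = 0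
    rw [e2]; exact z2add _
  · rintro ⟨ρ, σ⟩ _ _ heq
    have h3 := congrArg Prod.fst heq
    simp only [mul_eq_left] at h3
    rw [Equiv.swap_eq_one_iff] at h3
    exact hlne h3
  · rintro ⟨ρ, σ⟩ _; exact Finset.mem_univ _
  · rintro ⟨ρ, σ⟩ _
    simp [mul_assoc]

theorem FE_const {v : Fin n → Mat n} (hv : ∀ i, SZ (v i)) {y : Fin (q+1) → Fin n → ZMod 2}
    {l : Fin (q+1) → Fin n} (hl : Function.Injective l) {s : Fin n} (hs : ∀ k, l k ≠ s) :
    FE v y l (fun _ => false) = 0 := by
  let π : Equiv.Perm (Fin n) := (Equiv.addRight (1 : Fin (q+1))).viaEmbedding ⟨l, hl⟩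
  have hπ : ∀ k, π (l k) = l (k+1) := by
    intro k
    exact Equiv.Perm.viaEmbedding_apply (Equiv.addRight (1 : Fin (q+1))) ⟨l, hl⟩ k
  have hπ' : ∀ i, (∀ k, l k ≠ i) → π i = i := by
    intro i hi
    apply Equiv.Perm.viaEmbedding_apply_of_notMem
    rintro ⟨k, hk⟩
    exact hi k hk
  unfold FE
  have e1 : ∑ p : Equiv.Perm (Fin n) × Equiv.Perm (Fin n), PE v y l (fun _ => false) p.1 p.2 =
      ∑ p : Equiv.Perm (Fin n) × Equiv.Perm (Fin n),
        (∏ k, y k (p.1 (l k))) * (∏ k, y k (p.2 (l k))) * rst v l p.1 p.2 := by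
    rw [← Equiv.sum_comp (Equiv.prodCongr (Equiv.refl (Equiv.Perm (Fin n)))
      (Equiv.mulRight π)) (fun p => PE v y l (fun _ => false) p.1 p.2)]
    apply Finset.sum_congr rfl
    rintro ⟨ρ, σ⟩ _
    change PE v y l (fun _ => false) ρ (σ * π) = _
    unfold PE
    congr 1
    · have e4 : ∏ k, fB y (fun _ => false) k ((σ * π) (l k)) = ∏ k, y k (σ (l k)) := by
        rw [← Equiv.prod_comp (Equiv.addRight (1 : Fin (q+1))) (fun k => y k (σ (l k)))]
        apply Finset.prod_congr rfl
        intro k _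
        rw [Equiv.Perm.mul_apply, hπ]
        simp [fB]
      rw [e4]
      simp [fA]
    · apply rst_congr_right
      intro i hi
      rw [Equiv.Perm.mul_apply, hπ' i hi]
  rw [e1]
  apply sum_swap_zero
  · rintro ⟨ρ, σ⟩
    simp only [Prod.swap_prod_mk]
    rw [rst_swap hv]; ring
  · intro a
    simp only []
    rw [rst_zero hv hs rfl, mul_zero]

theorem FE_zero {v : Fin n → Mat n} (hv : ∀ i, SZ (v i)) {y : Fin (q+1) → Fin n → ZMod 2}
    {l : Fin (q+1) → Fin n} (hl : Function.Injective l) {s : Fin n} (hs : ∀ k, l k ≠ s)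
    (ε : Fin (q+1) → Bool) : FE v y l ε = 0 := by
  by_cases h : ∀ k, ε (k+1) = ε k
  · have hc : ∀ k, ε k = ε 0 := by
      intro k
      induction k using Fin.induction with
      | zero => rfl
      | succ i ih =>
        have := h i.castSucc
        rw [Fin.coeSucc_eq_succ] at this
        rw [this, ih]
    cases h0 : ε 0 with
    | false =>
      have : ε = fun _ => false := by funext k; rw [hc, h0]
      rw [this]; exact FE_const hv hl hs
    | true =>
      have : ε = fun j => !((fun _ => false : Fin (q+1) → Bool) j) := by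
        funext k; rw [hc, h0]; rfl
      rw [this, FE_not hv]; exact FE_const hv hl hs
  · push Not at h
    obtain ⟨k, hk⟩ := h
    cases h0 : ε k with
    | true =>
      have h1 : ε (k+1) = false := by
        cases h2 : ε (k+1) with
        | false => rfl
        | true => exact absurd (h2.trans h0.symm) hk
      exact FE_aux hl h0 h1
    | false =>
      have h1 : ε (k+1) = true := by
        cases h2 : ε (k+1) with
        | true => rfl
        | false => exact absurd (h2.trans h0.symm) hk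
      rw [← FE_not hv]
      exact FE_aux hl (k := k) (by simp [h0]) (by simp [h1])

/-- the key vanishing property -/
theorem hf_cyc {v : Fin n → Mat n} (hv : ∀ i, SZ (v i)) {y : Fin (q+1) → Fin n → ZMod 2}
    {l : Fin (q+1) → Fin n} (hl : Function.Injective l)
    (hvl : ∀ k, v (l k) = wd (y k) (y (k+1))) (hq : q + 1 < n) (s0 : Fin n) : hf s0 v = 0 := by
  obtain ⟨s, hs⟩ : ∃ s : Fin n, ∀ k, l k ≠ s := by
    by_contra hcon
    push Not at hcon
    have : Function.Surjective l := fun i => by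
      obtain ⟨k, hk⟩ := hcon i; exact ⟨k, hk⟩
    have := Fintype.card_le_of_surjective l this
    simp at this
    omega
  rw [hf_indep hv s0 s]
  let f : (Fin (q+1) → Bool) → ZMod 2 := fun ε =>
    ∑ p : Equiv.Perm (Fin n) × Equiv.Perm (Fin n),
      (if p.1 s < p.2 s then 1 else 0) * PE v y l ε p.1 p.2
  have e1 : hf s v = ∑ ε, f ε := by
    unfold hf
    simp only [f]
    rw [Finset.sum_comm]
    apply Finset.sum_congr rfl
    intro p _
    rw [PP_eq_sum hl hvl, Finset.mul_sum]
  have e2 : ∀ ε, f ε + f (fun j => !ε j) = 0 := by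
    intro ε
    rw [← FE_zero hv hl hs (y := y) ε]
    have e3 : f (fun j => !ε j) = ∑ p : Equiv.Perm (Fin n) × Equiv.Perm (Fin n),
        (if p.2 s < p.1 s then 1 else 0) * PE v y l ε p.1 p.2 := by
      simp only [f]
      rw [← Equiv.sum_comp (Equiv.prodComm (Equiv.Perm (Fin n)) (Equiv.Perm (Fin n)))
        (fun p => (if p.2 s < p.1 s then 1 else 0) * PE v y l ε p.1 p.2)]
      apply Finset.sum_congr rfl
      intro p _
      rw [PE_not hv]
      rfl
    rw [e3]
    simp only [f]
    unfold FE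
    rw [← Finset.sum_add_distrib]
    apply Finset.sum_congr rfl
    rintro ⟨ρ, σ⟩ _
    simp only []
    rcases lt_trichotomy (ρ s) (σ s) with h | h | h
    · rw [if_pos h, if_neg h.not_gt]; ring
    · have : PE v y l ε ρ σ = 0 := by
        unfold PE
        rw [rst_zero hv hs h, mul_zero]
      rw [this]; ring
    · rw [if_neg h.not_gt, if_pos h]; ring
  rw [e1]
  refine Finset.sum_involution (fun ε _ => fun j => !ε j) ?_ ?_ ?_ ?_
  · intro ε _; exact e2 ε
  · intro ε _ _ heq
    have := congrFun heq 0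
    cases h : ε 0 <;> simp [h] at this
  · intro ε _; exact Finset.mem_univ _
  · intro ε _; funext j; simp

end cyc

end Pool.Agent.LawsFK
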