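import Mathlib
import Pool.Agent.LawsFK.Ham

set_option autoImplicit false

/-!
# Iterated differences of the half mixed discriminant
-/

namespace Pool.Agent.LawsFK

open Finset

section

variable {n q : ℕ}

def gS (C : Fin n → Mat n) (b : Fin (q+1) → Fin n → ZMod 2) (w : Fin (q+1) → Mat n)
    (S : Finset (Fin (q+1))) (i : Fin n) : Option (Fin (q+1)) → Mat n
  | none => C i
  | some k => fun j j' => if k ∈ S then b k i * w k j j' else 0

theorem gS_sum (C : Fin n → Mat n) (b : Fin (q+1) → Fin n → ZMod 2) (w : Fin (q+1) → Mat n)
    (S : Finset (Fin (q+1))) (i j j' : Fin n) :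
    ∑ o, gS C b w S i o j j' = C i j j' + ∑ k ∈ S, b k i * w k j j' := by
  rw [Fintype.sum_option]
  simp [gS, Finset.sum_ite_mem]

/-- membership toggling -/
def tog (k : Fin (q+1)) (S : Finset (Fin (q+1))) : Finset (Fin (q+1)) :=
  if k ∈ S then S.erase k else insert k S

theorem mem_tog {k k' : Fin (q+1)} (S : Finset (Fin (q+1))) (h : k' ≠ k) :
    k' ∈ tog k S ↔ k' ∈ S := by
  unfold tog
  split_ifs with hk
  · simp [h]
  · simp [h]

theorem tog_tog (k : Fin (q+1)) (S : Finset (Fin (q+1))) : tog k (tog k S) = S := by
  unfold tog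
  by_cases hk : k ∈ S
  · simp [hk, Finset.insert_erase hk]
  · simp [hk]

theorem tog_ne (k : Fin (q+1)) (S : Finset (Fin (q+1))) : tog k S ≠ S := by
  unfold tog
  by_cases hk : k ∈ S
  · rw [if_pos hk]
    intro h
    have : k ∈ S.erase k := by rw [h]; exact hk
    simp at this
  · rw [if_neg hk]
    intro h
    apply hk
    rw [← h]; simp

theorem P1 {C : Fin n → Mat n} (hC : ∀ i, SZ (C i)) (b : Fin (q+1) → Fin n → ZMod 2)
    (y : Fin (q+1) → Fin n → ZMod 2) (hq : q + 1 < n) (s0 : Fin n) :
    ∑ S : Finset (Fin (q+1)),
      hf s0 (fun i j j' => C i j j' + ∑ k ∈ S, b k i * wd (y k) (y (k+1)) j j') = 0 := by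
  set w : Fin (q+1) → Mat n := fun k => wd (y k) (y (k+1)) with hw
  have e1 : ∀ S : Finset (Fin (q+1)),
      hf s0 (fun i j j' => C i j j' + ∑ k ∈ S, b k i * w k j j') =
        ∑ r : Fin n → Option (Fin (q+1)), hf s0 (fun i => gS C b w S i (r i)) := by
    intro S
    rw [← hf_expand]
    simp only [gS_sum]
  have e1' : ∀ S : Finset (Fin (q+1)),
      hf s0 (fun i j j' => C i j j' + ∑ k ∈ S, b k i * wd (y k) (y (k+1)) j j') =
        ∑ r : Fin n → Option (Fin (q+1)), hf s0 (fun i => gS C b w S i (r i)) := e1
  simp only [e1']
  rw [Finset.sum_comm]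
  apply Finset.sum_eq_zero
  intro r _
  by_cases hr : ∀ k : Fin (q+1), ∃ i, r i = some k
  · choose l hl using hr
    have hinj : Function.Injective l := by
      intro k k' h
      have h1 := hl k
      rw [h, hl k'] at h1
      exact (Option.some.inj h1).symm
    apply Finset.sum_eq_zero
    intro S _
    by_cases hall : ∀ k, k ∈ S ∧ b k (l k) = 1
    · apply hf_cyc (v := fun i => gS C b w S i (r i)) (y := y) (l := l) _ hinj _ hq
      · intro i
        cases h : r i with
        | none =>
          exact hC i
        | some k =>
          simp only [gS]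
          constructor
          · intro j j'
            change (if k ∈ S then b k i * w k j j' else 0) = (if k ∈ S then b k i * w k j' j else 0)
            rw [show w k j j' = w k j' j from (wd_SZ (y k) (y (k+1))).1 j j']
          · intro j
            change (if k ∈ S then b k i * w k j j else 0) = 0
            rw [show w k j j = 0 from (wd_SZ (y k) (y (k+1))).2 j]
            simp
      · intro k
        simp only [hl k, gS]
        funext j j'
        rw [if_pos (hall k).1, (hall k).2, one_mul]
    · push Not at hall
      obtain ⟨k, hk⟩ := hall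
      apply hf_slot_zero s0 (i := l k)
      intro j j'
      simp only [hl k, gS]
      by_cases hkS : k ∈ S
      · have h1 := hk hkS
        have h2 : b k (l k) = 0 := by
          revert h1
          generalize b k (l k) = x
          revert x; decide
        rw [if_pos hkS, h2, zero_mul]
      · rw [if_neg hkS]
  · push Not at hr
    obtain ⟨k, hk⟩ := hr
    refine Finset.sum_involution (fun S _ => tog k S) ?_ ?_ ?_ ?_
    · intro S _
      have : (fun i => gS C b w (tog k S) i (r i)) = (fun i => gS C b w S i (r i)) := by
        funext i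
        cases h : r i with
        | none => rfl
        | some k' =>
          have hne : k' ≠ k := by
            rintro rfl
            exact hk i h
          funext j j'
          simp only [gS]
          by_cases h2 : k' ∈ S
          · rw [if_pos h2, if_pos ((mem_tog S hne).mpr h2)]
          · rw [if_neg h2, if_neg (fun h3 => h2 ((mem_tog S hne).mp h3))]
      rw [this]
      exact z2add _
    · intro S _ _; exact tog_ne k S
    · intro S _; exact Finset.mem_univ _
    · intro S _; exact tog_tog k S

end

section top

variable {q : ℕ}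

/-- the value on the Hamiltonian cycle -/
theorem hf_top (hq : 1 ≤ q) :
    hf (0 : Fin (q+1)) (fun i => wd (Pi.single i 1) (Pi.single (i+1) 1)) = 1 := by
  have hne : ∀ i : Fin (q+1), i + 1 ≠ i := by
    intro i h
    have h1 : (1 : Fin (q+1)) = 0 := by simpa using h
    have := congrArg Fin.val h1
    rw [Fin.val_zero, Fin.val_one'] at this
    rw [Nat.mod_eq_of_lt (by omega)] at this
    omega
  have h01 : (0 : Fin (q+1)) < 0 + 1 := by
    rw [zero_add, Fin.lt_def, Fin.val_zero, Fin.val_one', Nat.mod_eq_of_lt (by omega)]
    exact Nat.one_pos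
  unfold hf
  rw [Finset.sum_eq_single (1, Equiv.addRight 1)]
  · have e0 : ((1 : Equiv.Perm (Fin (q+1))) 0) < (Equiv.addRight (1 : Fin (q+1))) 0 := h01
    rw [if_pos e0, one_mul]
    unfold PP
    apply Finset.prod_eq_one
    intro i _
    simp [wd, hne i, (hne i).symm]
  · rintro ⟨ρ, σ⟩ _ hp
    by_contra hcon
    apply hp
    have h1 : ρ 0 < σ 0 := by
      by_contra h
      simp [h] at hcon
    have h2 : ∀ i : Fin (q+1), (ρ i = i ∧ σ i = i + 1) ∨ (ρ i = i + 1 ∧ σ i = i) := by
      intro i
      by_contra h
      apply hcon
      have : PP (fun i : Fin (q+1) => wd (Pi.single i 1) (Pi.single (i+1) 1)) ρ σ = 0 := by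
        unfold PP
        apply Finset.prod_eq_zero (Finset.mem_univ i)
        unfold wd
        rw [not_or, not_and_or, not_and_or] at h
        simp only [Pi.single_apply]
        rcases h with ⟨h3 | h3, h4 | h4⟩ <;> simp [h3, h4]
      simp only [this, mul_zero]
    have h3 : ∀ i : Fin (q+1), ρ i = i ∧ σ i = i + 1 := by
      intro i
      induction i using Fin.induction with
      | zero =>
        rcases h2 0 with h | h
        · exact h
        · rw [h.1, h.2] at h1
          exact absurd h1 h01.not_gt
      | succ i ih =>
        rcases h2 i.succ with h | h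
        · exact h
        · exfalso
          have h5 : σ i.succ = σ i.castSucc := by
            rw [h.2, ih.2, Fin.coeSucc_eq_succ]
          have h6 := σ.injective h5
          exact absurd h6 (Fin.castSucc_lt_succ (i := i)).ne'
    rw [Prod.mk.injEq]
    constructor
    · ext i; rw [(h3 i).1]; rfl
    · ext i; rw [(h3 i).2]; rfl
  · intro h
    exact absurd (Finset.mem_univ _) h

theorem P2 (hq : 1 ≤ q) :
    ∑ S : Finset (Fin (q+1)),
      hf (0 : Fin (q+1)) (fun i j j' => 0 + ∑ k ∈ S, (Pi.single k 1 : Fin (q+1) → ZMod 2) i *
        wd (Pi.single k 1) (Pi.single (k+1) 1) j j') = 1 := by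
  rw [Finset.sum_eq_single Finset.univ]
  · have : (fun (i j j' : Fin (q+1)) => 0 + ∑ k ∈ Finset.univ,
        (Pi.single k 1 : Fin (q+1) → ZMod 2) i *
        wd (Pi.single k 1) (Pi.single (k+1) 1) j j') =
        (fun i => wd (Pi.single i 1) (Pi.single (i+1) 1)) := by
      funext i j j'
      rw [zero_add, Finset.sum_eq_single i]
      · simp
      · intro k _ hk
        simp [hk.symm]
      · intro h; exact absurd (Finset.mem_univ _) h
    rw [this]
    exact hf_top hq
  · intro S _ hS
    obtain ⟨i, hi⟩ : ∃ i, i ∉ S := by
      by_contra h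
      push Not at h
      exact hS (Finset.eq_univ_iff_forall.mpr h)
    apply hf_slot_zero _ (i := i)
    intro j j'
    rw [zero_add]
    apply Finset.sum_eq_zero
    intro k hk
    have : i ≠ k := by rintro rfl; exact hi hk
    simp [this]
  · intro h; exact absurd (Finset.mem_univ _) h

end top

end Pool.Agent.LawsFK
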