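import Mathlib
import Pool.Agent.LawsFI.Core

set_option autoImplicit false

/-!
# The truncated tensor group
-/

namespace Pool.Agent.LawsFK

open Pool.Agent.LawsFI (cm map_cm)

/-- formal sums `1 + a + b + c + d` with `a, b, c, d` tensors of degree 1, 2, 3, 4 over `F₂`;
products of degree more than four are dropped -/
@[ext] structure T4 where
  a : ℕ → ZMod 2
  b : ℕ → ℕ → ZMod 2
  c : ℕ → ℕ → ℕ → ZMod 2
  d : ℕ → ℕ → ℕ → ℕ → ZMod 2

namespace T4

instance : Mul T4 := ⟨fun x y =>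
  { a := fun i => x.a i + y.a i
    b := fun i j => x.b i j + y.b i j + x.a i * y.a j
    c := fun i j k => x.c i j k + y.c i j k + x.a i * y.b j k + x.b i j * y.a k
    d := fun i j k l => x.d i j k l + y.d i j k l + x.a i * y.c j k l + x.b i j * y.b k l +
      x.c i j k * y.a l }⟩

instance : One T4 := ⟨⟨fun _ => 0, fun _ _ => 0, fun _ _ _ => 0, fun _ _ _ _ => 0⟩⟩

instance : Inv T4 := ⟨fun x =>
  { a := fun i => - x.a i
    b := fun i j => - x.b i j + x.a i * x.a j
    c := fun i j k => - x.c i j k + x.a i * x.b j k + x.b i j * x.a k - x.a i * x.a j * x.a k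
    d := fun i j k l => - x.d i j k l + x.a i * x.c j k l + x.b i j * x.b k l + x.c i j k * x.a l
      - x.a i * x.a j * x.b k l - x.a i * x.b j k * x.a l - x.b i j * x.a k * x.a l
      + x.a i * x.a j * x.a k * x.a l }⟩

theorem mul_a (x y : T4) (i : ℕ) : (x * y).a i = x.a i + y.a i := rfl
theorem mul_b (x y : T4) (i j : ℕ) : (x * y).b i j = x.b i j + y.b i j + x.a i * y.a j := rfl
theorem mul_c (x y : T4) (i j k : ℕ) : (x * y).c i j k =
  x.c i j k + y.c i j k + x.a i * y.b j k + x.b i j * y.a k := rfl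
theorem mul_d (x y : T4) (i j k l : ℕ) : (x * y).d i j k l =
  x.d i j k l + y.d i j k l + x.a i * y.c j k l + x.b i j * y.b k l + x.c i j k * y.a l := rfl
theorem one_a (i : ℕ) : (1 : T4).a i = 0 := rfl
theorem one_b (i j : ℕ) : (1 : T4).b i j = 0 := rfl
theorem one_c (i j k : ℕ) : (1 : T4).c i j k = 0 := rfl
theorem one_d (i j k l : ℕ) : (1 : T4).d i j k l = 0 := rfl
theorem inv_a (x : T4) (i : ℕ) : (x⁻¹).a i = - x.a i := rfl
theorem inv_b (x : T4) (i j : ℕ) : (x⁻¹).b i j = - x.b i j + x.a i * x.a j := rfl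
theorem inv_c (x : T4) (i j k : ℕ) : (x⁻¹).c i j k =
  - x.c i j k + x.a i * x.b j k + x.b i j * x.a k - x.a i * x.a j * x.a k := rfl
theorem inv_d (x : T4) (i j k l : ℕ) : (x⁻¹).d i j k l =
  - x.d i j k l + x.a i * x.c j k l + x.b i j * x.b k l + x.c i j k * x.a l
      - x.a i * x.a j * x.b k l - x.a i * x.b j k * x.a l - x.b i j * x.a k * x.a l
      + x.a i * x.a j * x.a k * x.a l := rfl

instance : Group T4 := Group.ofLeftAxioms
  (by
    intro x y z
    ext
    · simp only [mul_a]; ring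
    · simp only [mul_a, mul_b]; ring
    · simp only [mul_a, mul_b, mul_c]; ring
    · simp only [mul_a, mul_b, mul_c, mul_d]; ring)
  (by
    intro x
    ext
    · simp only [mul_a, one_a]; ring
    · simp only [mul_b, one_a, one_b]; ring
    · simp only [mul_c, one_a, one_b, one_c]; ring
    · simp only [mul_d, one_a, one_b, one_c, one_d]; ring)
  (by
    intro x
    ext
    · simp only [mul_a, inv_a, one_a]; ring
    · simp only [mul_b, inv_a, inv_b, one_b]; ring
    · simp only [mul_c, inv_a, inv_b, inv_c, one_c]; ring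
    · simp only [mul_d, inv_a, inv_b, inv_c, inv_d, one_d]; ring)

theorem cm_a (x y : T4) (i : ℕ) : (cm x y).a i = 0 := by
  simp only [cm, mul_a, inv_a]; ring

theorem cm_b (x y : T4) (i j : ℕ) : (cm x y).b i j = x.a i * y.a j - y.a i * x.a j := by
  simp only [cm, mul_a, mul_b, inv_a, inv_b]; ring

theorem cm_b_zero {x : T4} (y : T4) (hx : ∀ i, x.a i = 0) (i j : ℕ) : (cm x y).b i j = 0 := by
  rw [cm_b, hx, hx]; ring

theorem cm_c {x : T4} (y : T4) (hx : ∀ i, x.a i = 0) (i j k : ℕ) :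
    (cm x y).c i j k = x.b i j * y.a k - y.a i * x.b j k := by
  simp only [cm, mul_a, mul_b, mul_c, inv_a, inv_b, inv_c, hx]; ring

theorem cm_c_zero {x : T4} (y : T4) (hx : ∀ i, x.a i = 0) (hb : ∀ i j, x.b i j = 0)
    (i j k : ℕ) : (cm x y).c i j k = 0 := by
  rw [cm_c y hx, hb, hb]; ring

theorem cm_d {x : T4} (y : T4) (hx : ∀ i, x.a i = 0) (hb : ∀ i j, x.b i j = 0)
    (i j k l : ℕ) : (cm x y).d i j k l = x.c i j k * y.a l - y.a i * x.c j k l := by
  simp only [cm, mul_a, mul_b, mul_c, mul_d, inv_a, inv_b, inv_c, inv_d, hx, hb]; ring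

end T4

open T4

def InD (t : T4) : Prop := (∀ i, t.a i = 0) ∧ (∀ i j, t.b i j = 0) ∧ (∀ i j k, t.c i j k = 0)

theorem InD.comm {t : T4} (h : InD t) (s : T4) : t * s = s * t := by
  obtain ⟨h1, h2, h3⟩ := h
  ext
  · simp only [mul_a]; ring
  · simp only [mul_b, h1]; ring
  · simp only [mul_c, h1, h2]; ring
  · simp only [mul_d, h1, h2, h3]; ring

/-- `[x, y, s, s]` -/
def qd {T : Type*} [Group T] (x y s : T) : T := cm (cm (cm x y) s) s

theorem map_qd {T T' : Type*} [Group T] [Group T'] (f : T →* T') (x y s : T) :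
    f (qd x y s) = qd (f x) (f y) (f s) := by simp [qd]

theorem qd_InD (x y s : T4) : InD (qd x y s) := by
  have h1 := cm_a x y
  have h2 := cm_a (cm x y) s
  have h3 := cm_b_zero (x := cm x y) s h1
  have h4 := cm_a (cm (cm x y) s) s
  have h5 := cm_b_zero (x := cm (cm x y) s) s h2
  have h6 := cm_c_zero (x := cm (cm x y) s) s h2 h3
  exact ⟨h4, h5, h6⟩

theorem qd_aux : ∀ xi xj xk yi yj yk si sj sk : ZMod 2,
    ((xi * yj - yi * xj) * sk - si * (xj * yk - yj * xk)) * sk -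
      si * ((xj * yk - yj * xk) * sk - sj * (xk * yk - yk * xk)) =
    (xi * yj + yi * xj) * sk := by decide

theorem qd_d (x y s : T4) (i j k : ℕ) :
    (qd x y s).d i j k k = (x.a i * y.a j + y.a i * x.a j) * s.a k := by
  have h1 := cm_a x y
  have h2 := cm_a (cm x y) s
  have h3 := cm_b_zero (x := cm x y) s h1
  unfold qd
  rw [cm_d (x := cm (cm x y) s) s h2 h3, cm_c (x := cm x y) s h1, cm_c (x := cm x y) s h1,
    cm_b, cm_b, cm_b]
  exact qd_aux _ _ _ _ _ _ _ _ _

/-- weight five commutators vanish -/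
theorem cm5 (x1 x2 x3 x4 x5 : T4) : cm (cm (cm (cm x1 x2) x3) x4) x5 = 1 := by
  have h1 := cm_a x1 x2
  have h2 := cm_a (cm x1 x2) x3
  have h3 := cm_b_zero (x := cm x1 x2) x3 h1
  have h4 := cm_a (cm (cm x1 x2) x3) x4
  have h5 := cm_b_zero (x := cm (cm x1 x2) x3) x4 h2
  have h6 := cm_c_zero (x := cm (cm x1 x2) x3) x4 h2 h3
  have h7 : InD (cm (cm (cm x1 x2) x3) x4) := ⟨h4, h5, h6⟩
  have h8 := h7.comm x5
  unfold cm at h8 ⊢
  rw [h8]; group

/-- shifting the top component -/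
def sh (t : T4) (e : ℕ → ℕ → ℕ → ℕ → ZMod 2) : T4 :=
  { t with d := fun i j k l => t.d i j k l + e i j k l }

theorem mul_InD {u : T4} (h : InD u) (t : T4) : t * u = sh t u.d := by
  obtain ⟨h1, h2, h3⟩ := h
  ext
  · simp only [mul_a, h1, sh]; ring
  · simp only [mul_b, h1, h2, sh]; ring
  · simp only [mul_c, h1, h2, h3, sh]; ring
  · simp only [mul_d, h1, h2, h3, sh]; ring

theorem sh_sh (t : T4) (e e' : ℕ → ℕ → ℕ → ℕ → ZMod 2) :
    sh (sh t e) e' = sh t (fun i j k l => e i j k l + e' i j k l) := by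
  unfold sh
  ext
  · rfl
  · rfl
  · rfl
  · simp only []; ring

theorem sh_zero (t : T4) : sh t (fun _ _ _ _ => 0) = t := by
  unfold sh
  ext
  · rfl
  · rfl
  · rfl
  · simp only [add_zero]

theorem InD_sh {t : T4} {e : ℕ → ℕ → ℕ → ℕ → ZMod 2} : InD (sh t e) ↔ InD t := Iff.rfl

end Pool.Agent.LawsFK
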