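import Mathlib
import Pool.Agent.LawsFI.Core
import Pool.Agent.LawsFI.Words
import Pool.Agent.LawsFK.T4
import Pool.Agent.LawsFK.Ham
import Pool.Agent.LawsFK.Ham2

set_option autoImplicit false

/-!
# The test groups and the words
-/

namespace Pool.Agent.LawsFK

open Pool.Agent.LawsFI (F cm map_cm)

/-! ### functions on a group extended by the group -/

@[ext] structure WG (T : Type*) where
  f : T → ZMod 2
  t : T

namespace WG

variable {T : Type*} [Group T]

instance : Mul (WG T) := ⟨fun x y => ⟨fun s => x.f s + y.f (s * x.t), x.t * y.t⟩⟩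
instance : One (WG T) := ⟨⟨fun _ => 0, 1⟩⟩
instance : Inv (WG T) := ⟨fun x => ⟨fun s => - x.f (s * x.t⁻¹), x.t⁻¹⟩⟩

theorem mul_f (x y : WG T) (s : T) : (x * y).f s = x.f s + y.f (s * x.t) := rfl
theorem mul_t (x y : WG T) : (x * y).t = x.t * y.t := rfl
theorem one_f (s : T) : (1 : WG T).f s = 0 := rfl
theorem one_t : (1 : WG T).t = 1 := rfl
theorem inv_f (x : WG T) (s : T) : (x⁻¹).f s = - x.f (s * x.t⁻¹) := rfl
theorem inv_t (x : WG T) : (x⁻¹).t = x.t⁻¹ := rfl

instance : Group (WG T) := Group.ofLeftAxioms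
  (by
    intro x y z
    ext
    · simp only [mul_f, mul_t, mul_assoc, add_assoc]
    · simp only [mul_t, mul_assoc])
  (by
    intro x
    ext
    · simp only [mul_f, one_f, one_t, mul_one, zero_add]
    · simp only [mul_t, one_t, one_mul])
  (by
    intro x
    ext
    · simp only [mul_f, inv_f, one_f, inv_t, neg_add_cancel]
    · simp only [mul_t, inv_t, one_t, inv_mul_cancel])

def proj : WG T →* T where
  toFun := fun x => x.t
  map_one' := rfl
  map_mul' := fun _ _ => rfl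

/-- difference operator -/
def dl (u : T) (f : T → ZMod 2) : T → ZMod 2 := fun s => f s + f (s * u)

theorem cm_of {e : WG T} (he : e.t = 1) (g : WG T) :
    (cm e g).t = 1 ∧ (cm e g).f = dl g.t e.f := by
  constructor
  · simp only [cm, mul_t, inv_t, he]; group
  · funext s
    simp only [cm, mul_f, mul_t, inv_f, inv_t, he, dl]
    have e1 : s * (1 * g.t) * 1⁻¹ = s * g.t := by group
    have e2 : s * (1 * g.t * 1⁻¹) * g.t⁻¹ = s := by group
    rw [e1, e2, mul_one]
    have h : ∀ a b c : ZMod 2, a + b + -c + -b = a + c := by decide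
    exact h _ _ _

end WG

open WG

section chain

variable {T : Type*} [Group T]

def chain (e : T) (u : ℕ → T) : ℕ → T
  | 0 => e
  | k+1 => cm (chain e u k) (u k)

theorem map_chain {T' : Type*} [Group T'] (φ : T →* T') (e : T) (u : ℕ → T) (k : ℕ) :
    φ (chain e u k) = chain (φ e) (fun i => φ (u i)) k := by
  induction k with
  | zero => rfl
  | succ k ih => rw [chain, chain, map_cm, ih]

def dls (u : ℕ → T) : ℕ → (T → ZMod 2) → (T → ZMod 2)
  | 0, f => f
  | k+1, f => dl (u k) (dls u k f)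

theorem chain_of {e : WG T} (he : e.t = 1) (u : ℕ → WG T) (k : ℕ) :
    (chain e u k).t = 1 ∧ (chain e u k).f = dls (fun i => (u i).t) k e.f := by
  induction k with
  | zero => exact ⟨he, rfl⟩
  | succ k ih =>
    have := cm_of ih.1 (u k)
    refine ⟨this.1, ?_⟩
    rw [chain, this.2, ih.2]; rfl

theorem dls_add (u : ℕ → T) (k : ℕ) (f g : T → ZMod 2) :
    dls u k (f + g) = dls u k f + dls u k g := by
  induction k with
  | zero => rfl
  | succ k ih =>
    funext s
    simp only [dls, dl, ih, Pi.add_apply]; ring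

theorem dls_zero (u : ℕ → T) (k : ℕ) : dls u k 0 = 0 := by
  induction k with
  | zero => rfl
  | succ k ih =>
    funext s
    simp [dls, dl, ih]

theorem dls_neg (u : ℕ → T) (k : ℕ) (f : T → ZMod 2) : dls u k (-f) = - dls u k f := by
  have h := dls_add u k f (-f)
  rw [add_neg_cancel, dls_zero] at h
  exact (neg_eq_of_add_eq_zero_right h.symm).symm

/-- right translation -/
def rt (t : T) (f : T → ZMod 2) : T → ZMod 2 := fun s => f (s * t)

theorem dls_rt {u : ℕ → T} (hu : ∀ i s, u i * s = s * u i) (k : ℕ) (t : T) (f : T → ZMod 2) :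
    dls u k (rt t f) = rt t (dls u k f) := by
  induction k with
  | zero => rfl
  | succ k ih =>
    funext s
    simp only [dls, dl, ih, rt]
    rw [mul_assoc, hu k t, ← mul_assoc]

theorem dl_eq (t : T) (f : T → ZMod 2) : dl t f = f + rt t f := rfl

theorem dls_dl {u : ℕ → T} (hu : ∀ i s, u i * s = s * u i) (k : ℕ) (t : T) (f : T → ZMod 2) :
    dls u k (dl t f) = dl t (dls u k f) := by
  rw [dl_eq, dls_add, dls_rt hu, dl_eq]

/-- left-normed commutator of weight five -/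
def e5 (z : ℕ → T) : T := cm (cm (cm (cm (z 0) (z 1)) (z 2)) (z 3)) (z 4)

theorem map_e5 {T' : Type*} [Group T'] (φ : T →* T') (z : ℕ → T) :
    φ (e5 z) = e5 (fun i => φ (z i)) := by simp [e5]

def uu (x a : ℕ → T) (q : ℕ) : ℕ → T := fun k => qd (x k) (x ((k+1) % (q+1))) (a k)

end chain

/-! ### the words -/

/-- `[z₀, …, z₄, [x₀,x₁,a₀,a₀], [x₁,x₂,a₁,a₁], …, [x_q,x₀,a_q,a_q]]` -/
def wrd (q : ℕ) : F :=
  chain (e5 (fun i => FreeGroup.of i)) (uu (fun k => FreeGroup.of (5+2*k))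
    (fun k => FreeGroup.of (6+2*k)) q) (q+1)

def van : F := cm (e5 (fun i => FreeGroup.of i)) (e5 (fun i => FreeGroup.of (5+i)))

theorem map_wrd {T : Type*} [Group T] (φ : F →* T) (q : ℕ) :
    φ (wrd q) = chain (e5 (fun i => φ (FreeGroup.of i)))
      (uu (fun k => φ (FreeGroup.of (5+2*k))) (fun k => φ (FreeGroup.of (6+2*k))) q) (q+1) := by
  unfold wrd
  rw [map_chain, map_e5]
  congr 1
  funext k
  simp only [uu, map_qd]

theorem map_van {T : Type*} [Group T] (φ : F →* T) :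
    φ van = cm (e5 (fun i => φ (FreeGroup.of i))) (e5 (fun i => φ (FreeGroup.of (5+i)))) := by
  unfold van
  rw [map_cm, map_e5, map_e5]

/-! ### the module -/

theorem uu_InD (x a : ℕ → T4) (q : ℕ) (i : ℕ) : InD (uu x a q i) := qd_InD _ _ _

theorem uu_comm (x a : ℕ → T4) (q : ℕ) (i : ℕ) (s : T4) : uu x a q i * s = s * uu x a q i :=
  (uu_InD x a q i).comm s

def MM (n : ℕ) : AddSubgroup (T4 → ZMod 2) where
  carrier := {f | ∀ q, q + 1 < n → ∀ x a : ℕ → T4, dls (uu x a q) (q+1) f = 0}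
  add_mem' := by
    intro f g hf hg q hq x a
    rw [dls_add, hf q hq, hg q hq, add_zero]
  zero_mem' := by
    intro q hq x a
    rw [dls_zero]
  neg_mem' := by
    intro f hf q hq x a
    rw [dls_neg, hf q hq, neg_zero]

theorem MM_rt {n : ℕ} {f : T4 → ZMod 2} (hf : f ∈ MM n) (t : T4) : rt t f ∈ MM n := by
  intro q hq x a
  rw [dls_rt (uu_comm x a q), hf q hq]
  rfl

/-- the test group -/
def GN (n : ℕ) : Subgroup (WG T4) where
  carrier := {x | x.f ∈ MM n}
  mul_mem' := by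
    intro x y hx hy
    have : (x * y).f = x.f + rt x.t y.f := rfl
    change (x * y).f ∈ MM n
    rw [this]
    exact AddSubgroup.add_mem _ hx (MM_rt hy _)
  one_mem' := (MM n).zero_mem
  inv_mem' := by
    intro x hx
    have : (x⁻¹).f = - rt x.t⁻¹ x.f := rfl
    change (x⁻¹).f ∈ MM n
    rw [this]
    exact AddSubgroup.neg_mem _ (MM_rt hx _)

theorem e5_t (z : ℕ → WG T4) : (e5 z).t = 1 := by
  have : (e5 z).t = e5 (fun i => (z i).t) := map_e5 (proj (T := T4)) z
  rw [this]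
  exact cm5 _ _ _ _ _

theorem uu_t (x a : ℕ → WG T4) (q : ℕ) :
    (fun i => (uu x a q i).t) = uu (fun i => (x i).t) (fun i => (a i).t) q := by
  funext k
  exact map_qd (proj (T := T4)) _ _ _

theorem GN_van (n : ℕ) (φ : F →* GN n) : φ van = 1 := by
  apply (GN n).subtype_injective
  rw [map_one]
  change ((GN n).subtype.comp φ) van = 1
  rw [map_van]
  have h1 := e5_t (fun i => ((GN n).subtype.comp φ) (FreeGroup.of i))
  have h2 := e5_t (fun i => ((GN n).subtype.comp φ) (FreeGroup.of (5+i)))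
  have h3 := cm_of h1 (e5 (fun i => ((GN n).subtype.comp φ) (FreeGroup.of (5+i))))
  ext1
  · rw [h3.2, h2]
    funext s
    simp only [dl, mul_one, one_f]
    exact z2add _
  · exact h3.1

theorem GN_wrd {n q : ℕ} (hq : q + 1 < n) (φ : F →* GN n) : φ (wrd q) = 1 := by
  apply (GN n).subtype_injective
  rw [map_one]
  change ((GN n).subtype.comp φ) (wrd q) = 1
  rw [map_wrd]
  have h1 := e5_t (fun i => ((GN n).subtype.comp φ) (FreeGroup.of i))
  have h3 := chain_of h1 (uu (fun k => ((GN n).subtype.comp φ) (FreeGroup.of (5+2*k)))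
    (fun k => ((GN n).subtype.comp φ) (FreeGroup.of (6+2*k))) q) (q+1)
  have hmem : (e5 (fun i => ((GN n).subtype.comp φ) (FreeGroup.of i))).f ∈ MM n := by
    rw [← map_e5]
    exact (φ (e5 (fun i => FreeGroup.of i))).2
  ext1
  · rw [h3.2, uu_t]
    exact hmem q hq _ _
  · exact h3.1

/-! ### the function -/

def Cm (n : ℕ) (d : ℕ → ℕ → ℕ → ℕ → ZMod 2) (i : Fin n) : Mat n := fun j j' =>
  if j < j' then d j j' (n+i) (n+i) else if j' < j then d j' j (n+i) (n+i) else 0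

theorem Cm_SZ (n : ℕ) (d : ℕ → ℕ → ℕ → ℕ → ZMod 2) (i : Fin n) : SZ (Cm n d i) := by
  constructor
  · intro j j'
    unfold Cm
    rcases lt_trichotomy j j' with h | h | h
    · simp [h, h.not_gt]
    · subst h; rfl
    · simp [h, h.not_gt]
  · intro j; simp [Cm]

theorem Cm_add (n : ℕ) (d e : ℕ → ℕ → ℕ → ℕ → ZMod 2) (i j j' : Fin n) :
    Cm n (fun a b c f => d a b c f + e a b c f) i j j' = Cm n d i j j' + Cm n e i j j' := by
  unfold Cm
  split_ifs <;> simp

theorem Cm_qd (n : ℕ) (x y s : T4) (i j j' : Fin n) :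
    Cm n (qd x y s).d i j j' =
      s.a (n+i) * wd (fun j => x.a (j : ℕ)) (fun j => y.a (j : ℕ)) j j' := by
  unfold Cm wd
  rcases lt_trichotomy j j' with h | h | h
  · rw [if_pos h, qd_d]; ring
  · subst h
    simp only [lt_self_iff_false, if_false]
    rw [mul_comm (y.a _), z2add, mul_zero]
  · rw [if_neg h.not_gt, if_pos h, qd_d]; ring

open Classical in
noncomputable def Phi (N : ℕ) : T4 → ZMod 2 := fun t =>
  if InD t then hf (0 : Fin (N+1)) (Cm (N+1) t.d) else 0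

theorem dls_formula {u : ℕ → T4} (hu : ∀ i, InD (u i)) (f : T4 → ZMod 2) (k : ℕ) (s : T4) :
    dls u k f s = ∑ S ∈ (Finset.range k).powerset,
      f (sh s (fun a b c d => ∑ i ∈ S, (u i).d a b c d)) := by
  induction k generalizing s with
  | zero =>
    simp [dls, sh_zero]
  | succ k ih =>
    rw [Finset.range_add_one, Finset.sum_powerset_insert Finset.notMem_range_self]
    simp only [dls, dl]
    rw [ih, ih]
    congr 1
    apply Finset.sum_congr rfl
    intro S hS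
    have hk : k ∉ S := fun h => Finset.notMem_range_self (Finset.mem_powerset.mp hS h)
    rw [mul_InD (hu k), sh_sh]
    congr 2
    funext a b c d
    rw [Finset.sum_insert hk]

theorem sum_powerset_fin (m : ℕ) (G : Finset ℕ → ZMod 2) :
    ∑ S ∈ (Finset.range m).powerset, G S = ∑ S : Finset (Fin m), G (S.map Fin.valEmbedding) := by
  symm
  refine Finset.sum_bij' (fun S _ => S.map Fin.valEmbedding)
    (fun S _ => Finset.univ.filter (fun k : Fin m => (k : ℕ) ∈ S)) ?_ ?_ ?_ ?_ ?_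
  · intro S _
    rw [Finset.mem_powerset]
    intro x hx
    rw [Finset.mem_map] at hx
    obtain ⟨k, _, rfl⟩ := hx
    exact Finset.mem_range.mpr k.2
  · intro S _; exact Finset.mem_univ _
  · intro S _
    ext k
    simp only [Finset.mem_filter, Finset.mem_univ, true_and, Finset.mem_map,
      Fin.valEmbedding_apply]
    constructor
    · rintro ⟨a, ha, h⟩
      rwa [Fin.ext h] at ha
    · intro h
      exact ⟨k, h, rfl⟩
  · intro S hS
    rw [Finset.mem_powerset] at hS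
    ext x
    rw [Finset.mem_map]
    constructor
    · rintro ⟨k, hk, rfl⟩
      exact (Finset.mem_filter.mp hk).2
    · intro hx
      exact ⟨⟨x, Finset.mem_range.mp (hS hx)⟩, Finset.mem_filter.mpr ⟨Finset.mem_univ _, hx⟩, rfl⟩
  · intro S _; rfl

theorem dls_Phi (N q : ℕ) (x a : ℕ → T4) (s : T4) (hs : InD s) :
    dls (uu x a q) (q+1) (Phi N) s = ∑ S : Finset (Fin (q+1)),
      hf (0 : Fin (N+1)) (fun i j j' => Cm (N+1) s.d i j j' + ∑ k ∈ S,
        (a k).a (N+1+i) * wd (fun j => (x k).a (j : ℕ))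
          (fun j => (x ((k+1 : Fin (q+1)) : ℕ)).a (j : ℕ)) j j') := by
  rw [dls_formula (u := uu x a q) (fun i => uu_InD x a q i), sum_powerset_fin]
  apply Finset.sum_congr rfl
  intro S _
  unfold Phi
  rw [if_pos (InD_sh.mpr hs)]
  congr 1
  funext i j j'
  have e1 : Cm (N+1) (sh s (fun a' b c d => ∑ i ∈ S.map Fin.valEmbedding,
      (uu x a q i).d a' b c d)).d i j j' = Cm (N+1) s.d i j j' +
      Cm (N+1) (fun a' b c d => ∑ i ∈ S.map Fin.valEmbedding, (uu x a q i).d a' b c d) i j j' :=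
    Cm_add _ _ _ _ _ _
  rw [e1]
  congr 1
  have e2 : ∀ S : Finset (Fin (q+1)), Cm (N+1) (fun a' b c d => ∑ i ∈ S.map Fin.valEmbedding,
      (uu x a q i).d a' b c d) i j j' = ∑ k ∈ S, Cm (N+1) (uu x a q k).d i j j' := by
    intro S
    simp only [Finset.sum_map, Fin.valEmbedding_apply]
    unfold Cm
    split_ifs
    · rfl
    · rfl
    · simp
  rw [e2]
  apply Finset.sum_congr rfl
  intro k _
  unfold uu
  rw [Cm_qd]
  have e3 : ((k : ℕ) + 1) % (q + 1) = ((k + 1 : Fin (q+1)) : ℕ) := by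
    rw [Fin.val_add, Fin.val_one', Nat.add_mod_mod]
  rw [e3]

theorem Phi_mem {N : ℕ} : Phi N ∈ MM (N+1) := by
  intro q hq x a
  funext s
  by_cases hs : InD s
  · rw [dls_Phi N q x a s hs]
    exact P1 (fun i => Cm_SZ _ _ _) (fun k i => (a k).a (N+1+i))
      (fun k j => (x k).a (j : ℕ)) hq 0
  · rw [dls_formula (u := uu x a q) (fun i => uu_InD x a q i)]
    apply Finset.sum_eq_zero
    intro S _
    unfold Phi
    rw [if_neg (fun h => hs (InD_sh.mp h))]

/-- basis elements -/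
def bs (j : ℕ) : T4 := ⟨Pi.single j 1, fun _ _ => 0, fun _ _ _ => 0, fun _ _ _ _ => 0⟩

theorem bs_a (j : ℕ) : (bs j).a = Pi.single j 1 := rfl

/-- the top value -/
theorem top_value {N : ℕ} (hN : 1 ≤ N) :
    dls (uu (fun k => bs k) (fun k => bs (N+1+k)) N) (N+1) (Phi N) 1 = 1 := by
  rw [dls_Phi N N _ _ 1 ⟨fun _ => rfl, fun _ _ => rfl, fun _ _ _ => rfl⟩]
  rw [← P2 hN]
  apply Finset.sum_congr rfl
  intro S _
  congr 1
  funext i j j'
  have e0 : Cm (N+1) (1 : T4).d i j j' = 0 := by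
    unfold Cm
    split_ifs <;> rfl
  rw [e0]
  congr 1
  apply Finset.sum_congr rfl
  intro k _
  have e1 : ∀ k : Fin (N+1), (fun j : Fin (N+1) => (bs (k : ℕ)).a (j : ℕ)) =
      (Pi.single k 1 : Fin (N+1) → ZMod 2) := by
    intro k
    funext j
    rw [bs_a, Pi.single_apply, Pi.single_apply]
    simp [Fin.ext_iff]
  have e2 : (bs (N+1+(k : ℕ))).a (N+1+(i : ℕ)) = (Pi.single k 1 : Fin (N+1) → ZMod 2) i := by
    rw [bs_a, Pi.single_apply, Pi.single_apply]
    simp [Fin.ext_iff]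
  rw [e1, e1, e2]

theorem Phi_supp (N : ℕ) (x a : ℕ → T4) (q k : ℕ) {s : T4} (hs : ¬ InD s) :
    dls (uu x a q) k (Phi N) s = 0 := by
  rw [dls_formula (u := uu x a q) (fun i => uu_InD x a q i)]
  apply Finset.sum_eq_zero
  intro S _
  unfold Phi
  rw [if_neg (fun h => hs (InD_sh.mp h))]

theorem dl_step {g : T4 → ZMod 2} {J : Set ℕ} (hg : ∀ s : T4, (∃ j ∉ J, s.a j ≠ 0) → g s = 0)
    {j : ℕ} (hj : j ∉ J) : dl (bs j) g 1 = g 1 ∧
      ∀ s : T4, (∃ i ∉ insert j J, s.a i ≠ 0) → dl (bs j) g s = 0 := by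
  constructor
  · unfold dl
    rw [one_mul, hg (bs j) ⟨j, hj, by rw [bs_a, Pi.single_eq_same]; exact one_ne_zero⟩, add_zero]
  · rintro s ⟨i, hi, h⟩
    rw [Set.mem_insert_iff, not_or] at hi
    unfold dl
    rw [hg s ⟨i, hi.2, h⟩, hg (s * bs j) ⟨i, hi.2, ?_⟩, add_zero]
    rw [T4.mul_a, bs_a, Pi.single_eq_of_ne hi.1, add_zero]
    exact h

theorem GN_not_wrd {N : ℕ} (hN : 1 ≤ N) : ∃ φ : F →* GN (N+1), φ (wrd N) ≠ 1 := by
  let z0 : GN (N+1) := ⟨⟨Phi N, 1⟩, Phi_mem⟩
  let em : T4 → GN (N+1) := fun t => ⟨⟨0, t⟩, (MM (N+1)).zero_mem⟩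
  let φ : F →* GN (N+1) := FreeGroup.lift (fun i =>
    if i = 0 then z0 else if i < 5 then em (bs i) else
      if i % 2 = 1 then em (bs ((i - 5) / 2)) else em (bs (N+1+(i-6)/2)))
  refine ⟨φ, fun hcon => ?_⟩
  have h0 : ((GN (N+1)).subtype.comp φ) (wrd N) = 1 := by
    rw [MonoidHom.comp_apply, hcon, map_one]
  set ψ := (GN (N+1)).subtype.comp φ with hψ
  rw [map_wrd] at h0
  have hz0 : ψ (FreeGroup.of 0) = ⟨Phi N, 1⟩ := by simp [hψ, φ, z0]
  have hz1 : ψ (FreeGroup.of 1) = ⟨0, bs 1⟩ := by simp [hψ, φ, em]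
  have hz2 : ψ (FreeGroup.of 2) = ⟨0, bs 2⟩ := by simp [hψ, φ, em]
  have hz3 : ψ (FreeGroup.of 3) = ⟨0, bs 3⟩ := by simp [hψ, φ, em]
  have hz4 : ψ (FreeGroup.of 4) = ⟨0, bs 4⟩ := by simp [hψ, φ, em]
  have hx : ∀ k, ψ (FreeGroup.of (5+2*k)) = ⟨0, bs k⟩ := by
    intro k
    have e1 : ¬ (5 + 2 * k = 0) := by omega
    have e2 : ¬ (5 + 2 * k < 5) := by omega
    have e3 : (5 + 2 * k) % 2 = 1 := by omega
    have e4 : (5 + 2 * k - 5) / 2 = k := by omega
    simp [hψ, φ, em, e3]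
  have ha : ∀ k, ψ (FreeGroup.of (6+2*k)) = ⟨0, bs (N+1+k)⟩ := by
    intro k
    have e1 : ¬ (6 + 2 * k = 0) := by omega
    have e2 : ¬ (6 + 2 * k < 5) := by omega
    have e3 : ¬ ((6 + 2 * k) % 2 = 1) := by omega
    have e4 : (6 + 2 * k - 6) / 2 = k := by omega
    simp [hψ, φ, em, e2]
  have h1 := e5_t (fun i => ψ (FreeGroup.of i))
  have h3 := chain_of h1 (uu (fun k => ψ (FreeGroup.of (5+2*k)))
    (fun k => ψ (FreeGroup.of (6+2*k))) N) (N+1)
  have h4 : (chain (e5 fun i => ψ (FreeGroup.of i)) (uu (fun k => ψ (FreeGroup.of (5 + 2 * k)))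
    (fun k => ψ (FreeGroup.of (6 + 2 * k))) N) (N+1)).f 1 = 0 := by
    rw [h0]; rfl
  rw [h3.2, uu_t] at h4
  have hX : (fun i => (ψ (FreeGroup.of (5+2*i))).t) = fun k => bs k := by
    funext k; rw [hx]
  have hA : (fun i => (ψ (FreeGroup.of (6+2*i))).t) = fun k => bs (N+1+k) := by
    funext k; rw [ha]
  rw [hX, hA] at h4
  have he : (e5 fun i => ψ (FreeGroup.of i)).f =
      dl (bs 4) (dl (bs 3) (dl (bs 2) (dl (bs 1) (Phi N)))) := by
    unfold e5
    beta_reduce
    rw [hz0, hz1, hz2, hz3, hz4]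
    have k1 := cm_of (e := (⟨Phi N, 1⟩ : WG T4)) rfl ⟨0, bs 1⟩
    have k2 := cm_of k1.1 ⟨0, bs 2⟩
    have k3 := cm_of k2.1 ⟨0, bs 3⟩
    have k4 := cm_of k3.1 ⟨0, bs 4⟩
    rw [k4.2, k3.2, k2.2, k1.2]
  rw [he] at h4
  have hu := uu_comm (fun k => bs k) (fun k => bs (N+1+k)) N
  rw [dls_dl hu, dls_dl hu, dls_dl hu, dls_dl hu] at h4
  set g := dls (uu (fun k => bs k) (fun k => bs (N+1+k)) N) (N+1) (Phi N) with hg
  have hg0 : ∀ s : T4, (∃ j ∉ (∅ : Set ℕ), s.a j ≠ 0) → g s = 0 := by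
    rintro s ⟨j, _, hj⟩
    exact Phi_supp N _ _ N (N+1) (fun h => hj (h.1 j))
  have s1 := dl_step hg0 (j := 1) (by simp)
  have s2 := dl_step s1.2 (j := 2) (by simp)
  have s3 := dl_step s2.2 (j := 3) (by simp)
  have s4 := dl_step s3.2 (j := 4) (by simp)
  rw [s4.1, s3.1, s2.1, s1.1, hg, top_value hN] at h4
  exact one_ne_zero h4

end Pool.Agent.LawsFK
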